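import Pool.Agent.H539R3.SA.KDefs

/-! Koszul cycles of the ideal `(a, b, c)^2`: proofs of `TaskK1` and `TaskK2`. -/

set_option autoImplicit false

namespace H662R3.SA

open MvPolynomial H539R3.SA

/-- exponent of the `j`-th quadratic monomial -/
noncomputable def qe (j : Fin 6) : Fin 4 →₀ ℕ :=
  Finsupp.single (fp j).castSucc 1 + Finsupp.single (fq j).castSucc 1

theorem quad_eq (j : Fin 6) : quad j = monomial (qe j) 1 := by
  simp only [quad, qe, X, monomial_mul, one_mul]

/-- exponent as a function -/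
def qv (i : Fin 6) (t : Fin 3) : ℕ := (if fp i = t then 1 else 0) + (if fq i = t then 1 else 0)

theorem qe_castSucc (i : Fin 6) (t : Fin 3) : qe i t.castSucc = qv i t := by
  simp only [qe, qv, Finsupp.add_apply, Finsupp.single_apply, Fin.castSucc_inj]

theorem qe_last (i : Fin 6) : qe i 3 = 0 := by
  have h : ∀ t : Fin 3, t.castSucc ≠ (3 : Fin 4) := by decide
  simp [qe, h]

theorem three_ne (t : Fin 3) : (3 : Fin 4) ≠ t.castSucc := by revert t; decide

theorem single_three (k : ℕ) (t : Fin 3) : (Finsupp.single (3 : Fin 4) k) t.castSucc = 0 := by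
  rw [Finsupp.single_apply, if_neg (three_ne t)]

theorem qe_le {i j : Fin 6} {k : ℕ} : qe i ≤ qe j + Finsupp.single 3 k ↔ i = j := by
  constructor
  · intro h
    have h2 : ∀ t : Fin 3, qv i t ≤ qv j t := by
      intro t
      have := h t.castSucc
      rw [Finsupp.add_apply, qe_castSucc, qe_castSucc, single_three] at this
      simpa using this
    clear h
    revert h2
    revert i j
    decide
  · rintro rfl
    exact le_self_add

theorem qe_not_le {i : Fin 6} {t : Fin 3} {k : ℕ} :
    ¬ qe i ≤ Finsupp.single t.castSucc 1 + Finsupp.single 3 k := by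
  intro h
  have h2 : ∀ t' : Fin 3, qv i t' ≤ if t = t' then 1 else 0 := by
    intro t'
    have := h t'.castSucc
    rw [Finsupp.add_apply, qe_castSucc, single_three, Finsupp.single_apply] at this
    simpa [Fin.castSucc_inj] using this
  clear h
  revert h2
  revert i t
  decide

theorem taskK1 : TaskK1 := by
  intro w w'
  have key : kap w • w' - kap w' • w = ∑ i, ∑ j, (w i * w' j) •
      ((Pi.single j (quad i) : Fin 6 → R) - Pi.single i (quad j)) := by
    funext t
    simp only [kap, Pi.sub_apply, Pi.smul_apply, smul_eq_mul, Finset.sum_apply, mul_sub,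
      Finset.sum_sub_distrib, Pi.single_apply, mul_ite, mul_zero]
    congr 1
    · rw [Finset.sum_mul]
      refine Finset.sum_congr rfl fun i _ => ?_
      rw [Finset.sum_ite_eq Finset.univ t]
      simp only [Finset.mem_univ, if_true]
      ring
    · rw [Finset.sum_comm, Finset.sum_mul]
      refine Finset.sum_congr rfl fun i _ => ?_
      rw [Finset.sum_ite_eq Finset.univ t]
      simp only [Finset.mem_univ, if_true]
      ring
  rw [key]
  refine Submodule.sum_mem _ fun i _ => Submodule.sum_mem _ fun j _ => Submodule.smul_mem _ _ ?_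
  exact Submodule.subset_span ⟨(i, j), rfl⟩

/-- elements of `Bd` come from antisymmetric matrices -/
theorem exists_antisymm {v : Fin 6 → R} (hv : v ∈ Bd) : ∃ s : Fin 6 → Fin 6 → R,
    (∀ i j, s i j = - s j i) ∧ ∀ j, v j = ∑ i, s i j * quad i := by
  unfold Bd at hv
  rw [Submodule.mem_span_range_iff_exists_fun] at hv
  obtain ⟨c, rfl⟩ := hv
  refine ⟨fun i j => c (i, j) - c (j, i), fun i j => by ring, fun t => ?_⟩
  rw [Fintype.sum_prod_type]
  simp only [Pi.sub_apply, Pi.smul_apply, smul_eq_mul, Finset.sum_apply, mul_sub,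
      Finset.sum_sub_distrib, Pi.single_apply, mul_ite, mul_zero, sub_mul]
  congr 1
  · refine Finset.sum_congr rfl fun i _ => ?_
    rw [Finset.sum_ite_eq Finset.univ t]
    simp
  · rw [Finset.sum_comm]
    refine Finset.sum_congr rfl fun i _ => ?_
    rw [Finset.sum_ite_eq Finset.univ t]
    simp

/-- index of the square of the variable `t` -/
def Dt : Fin 3 → Fin 6 := ![0, 1, 2]

/-- index of the product of the two other variables -/
def Jt : Fin 3 → Fin 6 := ![4, 5, 3]

/-- coefficient of rho -/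
def ct : Fin 3 → ℚ := ![1, 1, -2]

theorem rho_Dt (t : Fin 3) : rho (Dt t) = 0 := by
  fin_cases t <;> rfl

theorem rho_Jt (t : Fin 3) : rho (Jt t) = C (ct t) * X t.castSucc := by
  fin_cases t
  · show (X 0 : R) = C (1 : ℚ) * X 0
    simp
  · show (X 1 : R) = C (1 : ℚ) * X 1
    simp
  · show (-(2 * X 2) : R) = C (-2 : ℚ) * X 2
    rw [map_neg, neg_mul, map_ofNat]

theorem ct_ne (t : Fin 3) : ct t ≠ 0 := by
  fin_cases t <;> simp [ct]

theorem qe_Dt (t : Fin 3) : qe (Dt t) = Finsupp.single t.castSucc 1 + Finsupp.single t.castSucc 1 := by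
  fin_cases t <;> rfl

theorem coeff_sum' (s : Fin 6 → R) (m : Fin 4 →₀ ℕ) :
    coeff m (∑ i, s i * quad i) = ∑ i, if qe i ≤ m then coeff (m - qe i) (s i) else 0 := by
  rw [coeff_sum]
  refine Finset.sum_congr rfl fun i _ => ?_
  rw [quad_eq, coeff_mul_monomial', mul_one]

theorem coeff_sum_qe (s : Fin 6 → R) (j : Fin 6) (k : ℕ) :
    coeff (qe j + Finsupp.single 3 k) (∑ i, s i * quad i) = coeff (Finsupp.single 3 k) (s j) := by
  rw [coeff_sum']
  simp only [qe_le]
  rw [Finset.sum_ite_eq' Finset.univ j]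
  simp

theorem coeff_sum_single (s : Fin 6 → R) (t : Fin 3) (k : ℕ) :
    coeff (Finsupp.single t.castSucc 1 + Finsupp.single 3 k) (∑ i, s i * quad i) = 0 := by
  rw [coeff_sum']
  simp [qe_not_le]

theorem coeff_g {g : R} (hg : g • rho ∈ Bd) (t : Fin 3) (k : ℕ) :
    coeff (Finsupp.single t.castSucc 1 + Finsupp.single 3 k) g = 0 ∧
      coeff (Finsupp.single 3 k) g = 0 := by
  obtain ⟨s, hs, hv⟩ := exists_antisymm hg
  have h1 := hv (Jt t)
  have h2 := hv (Dt t)
  rw [Pi.smul_apply, smul_eq_mul, rho_Dt, mul_zero] at h2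
  rw [Pi.smul_apply, smul_eq_mul, rho_Jt] at h1
  have h3 := congrArg (coeff (qe (Jt t) + Finsupp.single 3 k)) h2
  rw [coeff_sum_qe, coeff_zero] at h3
  have h4 := congrArg (coeff (qe (Dt t) + Finsupp.single 3 k)) h1
  rw [coeff_sum_qe, hs, coeff_neg, ← h3, neg_zero, qe_Dt, mul_left_comm, coeff_C_mul,
    show Finsupp.single t.castSucc 1 + Finsupp.single t.castSucc 1 + Finsupp.single (3 : Fin 4) k =
      (Finsupp.single t.castSucc 1 + Finsupp.single (3 : Fin 4) k) + Finsupp.single t.castSucc 1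
      from add_right_comm _ _ _, coeff_mul_X] at h4
  have h5 := congrArg (coeff (Finsupp.single t.castSucc 1 + Finsupp.single 3 k)) h1
  rw [coeff_sum_single, mul_left_comm, coeff_C_mul, add_comm (Finsupp.single t.castSucc 1),
    coeff_mul_X] at h5
  exact ⟨(mul_eq_zero.1 h4).resolve_left (ct_ne t), (mul_eq_zero.1 h5).resolve_left (ct_ne t)⟩

theorem exists_qe_le (m : Fin 4 →₀ ℕ) (h : 2 ≤ m 0 + m 1 + m 2) : ∃ j, qe j ≤ m := by
  have key : ∀ j : Fin 6, (∀ t : Fin 3, qv j t ≤ m t.castSucc) → qe j ≤ m := by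
    intro j hj i
    induction i using Fin.lastCases with
    | last => show qe j 3 ≤ _; rw [qe_last]; exact Nat.zero_le _
    | cast t => rw [qe_castSucc]; exact hj t
  have h0 : (0 : Fin 3).castSucc = (0 : Fin 4) := rfl
  have h1 : (1 : Fin 3).castSucc = (1 : Fin 4) := rfl
  have h2 : (2 : Fin 3).castSucc = (2 : Fin 4) := rfl
  by_cases c0 : 2 ≤ m 0
  · exact ⟨0, key 0 fun t => by fin_cases t <;> simp [qv, fp, fq]; exact c0⟩
  by_cases c1 : 2 ≤ m 1
  · exact ⟨1, key 1 fun t => by fin_cases t <;> simp [qv, fp, fq]; exact c1⟩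
  by_cases c2 : 2 ≤ m 2
  · exact ⟨2, key 2 fun t => by fin_cases t <;> simp [qv, fp, fq]; exact c2⟩
  by_cases d0 : m 0 = 0
  · exact ⟨4, key 4 fun t => by fin_cases t <;> simp [qv, fp, fq] <;> omega⟩
  by_cases d1 : m 1 = 0
  · exact ⟨5, key 5 fun t => by fin_cases t <;> simp [qv, fp, fq] <;> omega⟩
  · exact ⟨3, key 3 fun t => by fin_cases t <;> simp [qv, fp, fq] <;> omega⟩

theorem coeff_f {f : R} {n : ℕ} (hn : 3 ≤ n) (hf : IsWeightedHomogeneous wts f n)
    (hg : (pderiv 3 f) • rho ∈ Bd) (m : Fin 4 →₀ ℕ) (hm : m 0 + m 1 + m 2 ≤ 1) :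
    coeff m f = 0 := by
  by_cases h3 : m 3 = 0
  · refine hf.coeff_eq_zero m ?_
    have : Finsupp.weight wts m = 2 * m 0 + 2 * m 1 + 2 * m 2 + 4 * m 3 := by
      rw [Finsupp.weight_apply, Finsupp.sum_fintype _ _ (by simp), Fin.sum_univ_four]
      simp [wts]
      ring
    rw [this]
    omega
  · obtain ⟨k, hk⟩ := Nat.exists_eq_succ_of_ne_zero h3
    have hcase : (∃ t : Fin 3, m = (Finsupp.single t.castSucc 1 + Finsupp.single 3 k) +
        Finsupp.single 3 1) ∨ m = Finsupp.single 3 k + Finsupp.single 3 1 := by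
      by_cases c0 : m 0 = 1
      · left
        refine ⟨0, ?_⟩
        ext i
        fin_cases i <;> simp <;> omega
      by_cases c1 : m 1 = 1
      · left
        refine ⟨1, ?_⟩
        ext i
        fin_cases i <;> simp <;> omega
      by_cases c2 : m 2 = 1
      · left
        refine ⟨2, ?_⟩
        ext i
        fin_cases i <;> simp <;> omega
      · right
        ext i
        fin_cases i <;> simp <;> omega
    rcases hcase with ⟨t, ht⟩ | ht
    · have := (coeff_g hg t k).1
      rw [coeff_pderiv, ← ht] at this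
      refine (mul_eq_zero.1 this).resolve_right ?_
      positivity
    · have := (coeff_g hg 0 k).2
      rw [coeff_pderiv, ← ht] at this
      refine (mul_eq_zero.1 this).resolve_right ?_
      positivity

theorem taskK2 : TaskK2 := by
  intro n hn f hf hg
  have h1 : f ∈ Ideal.span ((fun s => monomial s (1 : ℚ)) '' (Set.range qe)) := by
    rw [mem_ideal_span_monomial_image]
    intro m hm
    rw [mem_support_iff] at hm
    have h2 : 2 ≤ m 0 + m 1 + m 2 := by
      by_contra h
      exact hm (coeff_f hn hf hg m (by omega))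
    obtain ⟨j, hj⟩ := exists_qe_le m h2
    exact ⟨qe j, ⟨j, rfl⟩, hj⟩
  rw [← Set.range_comp] at h1
  have h3 : (fun s => monomial s (1 : ℚ)) ∘ qe = quad := by
    funext j
    exact (quad_eq j).symm
  rw [h3, Ideal.mem_span_range_iff_exists_fun] at h1
  exact h1

end H662R3.SA
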